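import Mathlib
import Pool.Agent.H595R2.PR.Core
import Pool.Agent.H595R2.PR.FEW

set_option autoImplicit false

/-! # Primitive roots for almost all primes, from an explicit polynomial-time list -/

namespace Pool.Agent.Results.MP_18a8a6_lc.AlmostAllPrimes

open Finset

/-- `F` is computable in polynomial time: some function on bit strings computed by a Turing machine
(Mathlib's `TM2ComputableInPolyTime`) in polynomially many steps sends the binary digits of `p` to
the code of the list `F p`. -/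
def PolyTimeList (F : ℕ → List ℕ) : Prop :=
  ∃ f : List Bool → List Bool, NPC.PolyTime f ∧ ∀ p : ℕ, f (Nat.bits p) = NPC.bits (F p)

/-- `g` is a primitive root modulo `p` -/
def IsPrimRoot (p g : ℕ) : Prop := orderOf (g : ZMod p) = p - 1

section aux

open H595R2.PR Filter Topology

theorem prim_of_gen {A C p a : ℕ} (hp : p.Prime) (h : Gen A C p a) (ht : Gam p (p.size ^ A) = ⊤) :
    IsPrimRoot p ((cands A C p).getD a 0) := by
  have : Fact p.Prime := ⟨hp⟩
  obtain ⟨u, hu1, hu2⟩ := h
  unfold IsPrimRoot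
  rw [← hu1, orderOf_units, ← Nat.card_zpowers, hu2, ht, Subgroup.card_top,
    Nat.card_eq_fintype_card, ZMod.card_units]

end aux

open Classical H595R2.PR Filter Topology in
/-- For every `ε > 0` and every `B` there are `C` and a polynomial-time computable list `F p` of
`n ^ C` numbers, `n = size p` the number of binary digits of `p`, such that for all but at most
`x ^ ε` of the primes `p ≤ x` (`x ≥ x₀`), all but a fraction `n ^ (-B)` of the entries of the list
`F p` are primitive roots modulo `p`. -/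
theorem result (ε : ℝ) (hε : 0 < ε) (B : ℕ) :
    ∃ (C : ℕ) (F : ℕ → List ℕ), PolyTimeList F ∧ (∀ p : ℕ, (F p).length = p.size ^ C) ∧
      ∃ x₀ : ℕ, ∀ x : ℕ, x₀ ≤ x →
        (#{p ∈ range (x + 1) | p.Prime ∧ ¬ p.size ^ B *
          #{i ∈ range (F p).length | ¬ IsPrimRoot p ((F p).getD i 0)} ≤ (F p).length} : ℝ) ≤
            (x : ℝ) ^ ε := by
  classical
  set ε' : ℝ := min (ε / 2) (1 / 2) with hε'
  have hε0 : 0 < ε' := lt_min (by linarith) (by norm_num)
  obtain ⟨A, hA⟩ := H595R2.PR.Gam_top ε' hε0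
  obtain ⟨x₁, hx₁⟩ := hA A le_rfl
  obtain ⟨p₀, hp₀⟩ := H595R2.PR.core A (A + B + 2)
  set F := H595R2.PR.cands A (A + B + 2) with hF
  have hlen : ∀ p : ℕ, (F p).length = p.size ^ (A + B + 2) := fun p => by
    simp [hF, H595R2.PR.cands]
  -- the main count
  have hmain : ∀ p : ℕ, p₀ ≤ p → p.Prime → H595R2.PR.Gam p (p.size ^ A) = ⊤ →
      #{i ∈ range (p.size ^ (A + B + 2)) | ¬ IsPrimRoot p ((F p).getD i 0)} ≤
        p.size ^ (A + 1) := by
    intro p hp hpp ht
    refine le_trans (card_le_card ?_) ((hp₀ p hp hpp).trans (by rw [pow_succ]))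
    intro i hi
    obtain ⟨h1, h2⟩ := mem_filter.1 hi
    exact mem_filter.2 ⟨h1, fun hg => h2 (prim_of_gen hpp hg ht)⟩
  refine ⟨A + B + 2, F, H595R2.PR.polyTime_cands A (A + B + 2), hlen, ?_⟩
  · -- few exceptional primes
    have hev : ∀ᶠ x : ℕ in atTop, (p₀ : ℝ) + 1 ≤ (x : ℝ) ^ (ε / 2) :=
      ((tendsto_rpow_atTop (by linarith : 0 < ε / 2)).comp
        tendsto_natCast_atTop_atTop).eventually_ge_atTop _
    obtain ⟨x₂, hx₂⟩ := eventually_atTop.1 hev
    refine ⟨max (max x₁ x₂) 1, fun x hx => ?_⟩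
    have hx1 : x₁ ≤ x := le_trans (le_trans (le_max_left _ _) (le_max_left _ _)) hx
    have hx2 : x₂ ≤ x := le_trans (le_trans (le_max_right _ _) (le_max_left _ _)) hx
    have hx3 : (1 : ℝ) ≤ x := by exact_mod_cast le_trans (le_max_right _ _) hx
    have hsub : (range (x + 1)).filter (fun p => p.Prime ∧ ¬ p.size ^ B *
          #{i ∈ range (F p).length | ¬ IsPrimRoot p ((F p).getD i 0)} ≤ (F p).length) ⊆
        range p₀ ∪ (range (x + 1)).filter (fun p => p.Prime ∧
          H595R2.PR.Gam p (p.size ^ A) ≠ ⊤) := by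
      intro p hp
      obtain ⟨h1, h2, h3⟩ := mem_filter.1 hp
      rw [mem_union, mem_range]
      by_contra hc
      push Not at hc
      obtain ⟨h4, h5⟩ := hc
      have h6 : H595R2.PR.Gam p (p.size ^ A) = ⊤ := by
        by_contra h7
        exact h5 (mem_filter.2 ⟨h1, h2, h7⟩)
      apply h3
      rw [hlen]
      calc p.size ^ B * _ ≤ p.size ^ B * p.size ^ (A + 1) :=
            Nat.mul_le_mul_left _ (hmain p h4 h2 h6)
        _ = p.size ^ (A + B + 1) := by ring
        _ ≤ p.size ^ (A + B + 2) := Nat.pow_le_pow_right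
            (Nat.size_pos.2 h2.pos) (by omega)
    have h8 : (#((range (x + 1)).filter (fun p => p.Prime ∧ ¬ p.size ^ B *
          #{i ∈ range (F p).length | ¬ IsPrimRoot p ((F p).getD i 0)} ≤ (F p).length)) : ℝ) ≤
        p₀ + (x : ℝ) ^ ε' := by
      have h9 := (card_le_card hsub).trans (card_union_le _ _)
      rw [card_range] at h9
      have h10 : (#((range (x + 1)).filter (fun p => p.Prime ∧ ¬ p.size ^ B *
          #{i ∈ range (F p).length | ¬ IsPrimRoot p ((F p).getD i 0)} ≤ (F p).length)) : ℝ) ≤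
          p₀ + #((range (x + 1)).filter (fun p => p.Prime ∧
          H595R2.PR.Gam p (p.size ^ A) ≠ ⊤)) := by exact_mod_cast h9
      exact h10.trans (by gcongr; exact hx₁ x hx1)
    refine h8.trans ?_
    have h11 : (x : ℝ) ^ ε' ≤ (x : ℝ) ^ (ε / 2) :=
      Real.rpow_le_rpow_of_exponent_le hx3 (min_le_left _ _)
    have h12 := hx₂ x hx2
    have h13 : (x : ℝ) ^ ε = (x : ℝ) ^ (ε / 2) * (x : ℝ) ^ (ε / 2) := by
      rw [← Real.rpow_add (by linarith)]; congr 1; ring
    have h14 : (1 : ℝ) ≤ (x : ℝ) ^ (ε / 2) := Real.one_le_rpow hx3 (by linarith)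
    have h15 : (0 : ℝ) ≤ p₀ := by positivity
    rw [h13]
    nlinarith

end Pool.Agent.Results.MP_18a8a6_lc.AlmostAllPrimes
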