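import Mathlib
import Pool.Agent.H595R2.PR.Core
import Pool.Agent.H595R2.PR.SIZ

set_option autoImplicit false

/-! # Elements of large order modulo every prime, from an explicit polynomial-time list -/

namespace Pool.Agent.Results.MP_18a8a6_lc.EveryPrime

open Finset

/-- `F` is computable in polynomial time: some function on bit strings computed by a Turing machine
(Mathlib's `TM2ComputableInPolyTime`) in polynomially many steps sends the binary digits of `p` to
the code of the list `F p`. -/
def PolyTimeList (F : ℕ → List ℕ) : Prop :=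
  ∃ f : List Bool → List Bool, NPC.PolyTime f ∧ ∀ p : ℕ, f (Nat.bits p) = NPC.bits (F p)

/-- the subgroup of `(ℤ/p)ˣ` generated by (the units among) `1, 2, …, Y` -/
def smallGroup (p Y : ℕ) : Subgroup (ZMod p)ˣ :=
  Subgroup.closure {u | ∃ i : ℕ, i < Y ∧ (u : ZMod p) = ((i + 1 : ℕ) : ZMod p)}

/-- the residue class of the number `g` modulo `p` generates the subgroup `Γ` -/
def Generates (p : ℕ) (Γ : Subgroup (ZMod p)ˣ) (g : ℕ) : Prop :=
  ∃ u : (ZMod p)ˣ, (u : ZMod p) = (g : ZMod p) ∧ Subgroup.zpowers u = Γ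

open Classical in
/-- For every `ε > 0` and `B` there are `A`, `C` and a polynomial-time computable list `F p` of
`n ^ C` numbers, `n = size p` the number of binary digits of `p`, such that for EVERY large prime
`p` all but a fraction `n ^ (-B)` of the entries of `F p` generate one and the same subgroup of
`(ℤ/p)ˣ`, namely the one generated by `1, 2, …, n ^ A`, and this subgroup has at least
`p ^ (1 - ε)` elements. -/
theorem result (ε : ℝ) (hε : 0 < ε) (B : ℕ) :
    ∃ (A C : ℕ) (F : ℕ → List ℕ), PolyTimeList F ∧ (∀ p : ℕ, (F p).length = p.size ^ C) ∧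
      ∃ p₀ : ℕ, ∀ p : ℕ, p₀ ≤ p → p.Prime →
        (p : ℝ) ^ (1 - ε) ≤ (Nat.card (smallGroup p (p.size ^ A)) : ℝ) ∧
        p.size ^ B * #{i ∈ range (F p).length |
          ¬ Generates p (smallGroup p (p.size ^ A)) ((F p).getD i 0)} ≤ (F p).length := by
  obtain ⟨A, hA⟩ := H595R2.PR.Gam_large ε hε
  obtain ⟨p₁, hp₁⟩ := hA A le_rfl
  obtain ⟨p₀, hp₀⟩ := H595R2.PR.core A (A + B + 1)
  refine ⟨A, A + B + 1, H595R2.PR.cands A (A + B + 1), H595R2.PR.polyTime_cands A (A + B + 1),
    fun p => by simp [H595R2.PR.cands], max p₁ p₀, fun p hp hpp =>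
      ⟨hp₁ p (le_of_max_le_left hp) hpp, ?_⟩⟩
  have hlen : (H595R2.PR.cands A (A + B + 1) p).length = p.size ^ (A + B + 1) := by
    simp [H595R2.PR.cands]
  rw [hlen]
  have h := hp₀ p (le_of_max_le_right hp) hpp
  calc p.size ^ B * _ ≤ p.size ^ B * (p.size ^ A * p.size) := Nat.mul_le_mul_left _ h
    _ = p.size ^ (A + B + 1) := by ring

end Pool.Agent.Results.MP_18a8a6_lc.EveryPrime
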