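import Mathlib

set_option autoImplicit false

/-! # Finding a generator with group operations only is as hard as factoring the group order -/

namespace Pool.Agent.Results.MP_18a8a6_lc.GenericFactoring

/-- The table of answers to all equality tests between the entries of a list. -/
def table {α : Type} (eq : α → α → Bool) (l : List α) : List (List Bool) :=
  l.map fun w => l.map fun w' => eq w w'

/-- The exponent vectors asked for by the algorithm `act` in its first `k` steps, when the equality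
tests are answered by `eq`.  In each step the next exponent vector is a function of the answers to
all the equality tests between the elements obtained so far. -/
def hist (act : List (List Bool) → ℤ × ℤ) (eq : ℤ × ℤ → ℤ × ℤ → Bool) : ℕ → List (ℤ × ℤ)
  | 0 => []
  | k + 1 => hist act eq k ++ [act (table eq (hist act eq k))]

/-- the output of the algorithm after `q` steps: one more exponent vector -/
def output (act : List (List Bool) → ℤ × ℤ) (eq : ℤ × ℤ → ℤ × ℤ → Bool) (q : ℕ) : ℤ × ℤ :=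
  act (table eq (hist act eq q))

open Classical in
/-- the equality test in a group `G`, for given elements `g`, `h` -/
noncomputable def groupEq {G : Type} [Group G] (g h : G) (w w' : ℤ × ℤ) : Bool :=
  decide (g ^ w.1 * h ^ w.2 = g ^ w'.1 * h ^ w'.2)

/-- the equality test of the free run: congruence of both coordinates modulo `R` and of the sum of
the coordinates modulo `S` -/
def freeEq (R S : ℕ) (w w' : ℤ × ℤ) : Bool :=
  decide ((R : ℤ) ∣ w.1 - w'.1 ∧ (R : ℤ) ∣ w.2 - w'.2 ∧
    (S : ℤ) ∣ (w.1 + w.2) - (w'.1 + w'.2))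

section aux

theorem hist_sub {act : List (List Bool) → ℤ × ℤ} {eq : ℤ × ℤ → ℤ × ℤ → Bool} {k m : ℕ}
    (h : k ≤ m) : ∀ w ∈ hist act eq k, w ∈ hist act eq m := by
  induction m, h using Nat.le_induction with
  | base => intro w hw; exact hw
  | succ m _ ih => intro w hw; rw [hist, List.mem_append]; exact Or.inl (ih w hw)

theorem length_hist (act : List (List Bool) → ℤ × ℤ) (eq : ℤ × ℤ → ℤ × ℤ → Bool) (k : ℕ) :
    (hist act eq k).length = k := by
  induction k with
  | zero => rfl
  | succ k ih => rw [hist, List.length_append, ih]; rfl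

theorem hist_congr {act : List (List Bool) → ℤ × ℤ} {eq eq' : ℤ × ℤ → ℤ × ℤ → Bool} {m : ℕ}
    (h : ∀ w ∈ hist act eq m, ∀ w' ∈ hist act eq m, eq w w' = eq' w w') :
    ∀ k ≤ m, hist act eq k = hist act eq' k := by
  intro k
  induction k with
  | zero => intro _; rfl
  | succ k ih =>
    intro hk
    have h1 := ih (by omega)
    rw [hist, hist, ← h1]
    congr 3
    unfold table
    refine List.map_congr_left fun w hw => List.map_congr_left fun w' hw' => ?_
    exact h w (hist_sub (by omega) w hw) w' (hist_sub (by omega) w' hw')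

/-- a slope avoiding all the differences of a list of vectors modulo a large prime -/
theorem exists_slope (l : List (ℤ × ℤ)) (r : ℕ) [Fact r.Prime] (hr : l.length ^ 2 < r) :
    ∃ s : ZMod r, ∀ w ∈ l, ∀ w' ∈ l,
      ((w.1 - w'.1 : ℤ) : ZMod r) + s * ((w.2 - w'.2 : ℤ) : ZMod r) = 0 →
        ((w.1 - w'.1 : ℤ) : ZMod r) = 0 ∧ ((w.2 - w'.2 : ℤ) : ZMod r) = 0 := by
  classical
  let f : (ℤ × ℤ) × (ℤ × ℤ) → ZMod r := fun p =>
    - ((p.1.1 - p.2.1 : ℤ) : ZMod r) / ((p.1.2 - p.2.2 : ℤ) : ZMod r)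
  let B : Finset (ZMod r) := (l.toFinset ×ˢ l.toFinset).image f
  have hB : B.card < (Finset.univ : Finset (ZMod r)).card := by
    rw [Finset.card_univ, ZMod.card]
    refine lt_of_le_of_lt (Finset.card_image_le.trans ?_) hr
    rw [Finset.card_product, pow_two]
    exact Nat.mul_le_mul (List.toFinset_card_le l) (List.toFinset_card_le l)
  obtain ⟨s, -, hs⟩ := Finset.exists_mem_notMem_of_card_lt_card hB
  refine ⟨s, fun w hw w' hw' h => ?_⟩
  by_cases h2 : ((w.2 - w'.2 : ℤ) : ZMod r) = 0
  · rw [h2, mul_zero, add_zero] at h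
    exact ⟨h, h2⟩
  · exfalso
    apply hs
    rw [Finset.mem_image]
    refine ⟨(w, w'), ?_, ?_⟩
    · rw [Finset.mem_product]
      exact ⟨List.mem_toFinset.2 hw, List.mem_toFinset.2 hw'⟩
    · change - ((w.1 - w'.1 : ℤ) : ZMod r) / ((w.2 - w'.2 : ℤ) : ZMod r) = s
      rw [div_eq_iff h2]
      linear_combination (-1 : ZMod r) * h

end aux

/-- **Main theorem.**  Let `G` be a cyclic group whose order is `R * S` with `R`, `S` coprime, `R`
squarefree with all prime factors larger than `(q + 1) ^ 2`.  Suppose the deterministic algorithm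
`act` with `q` queries `g ^ u * h ^ v` (the exponents depending only on the equalities between the
elements obtained so far) outputs a generator of `G` for every pair `g`, `h` generating `G`.
Consider the free run of `act`: the list of exponent vectors obtained when equalities are answered
by congruences modulo `R` and `S` (no group is needed for it).  Then for every prime `l ∣ R` there
are two vectors in the list of the free run (output included) whose difference `(D₁, D₂)` satisfies
`gcd (D₁, D₂, R) = R / l`. -/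
theorem result {G : Type} [CommGroup G] [Finite G] [IsCyclic G] (R S q : ℕ)
    (hG : Nat.card G = R * S) (hRS : Nat.Coprime R S) (hR : Squarefree R)
    (hbig : ∀ r : ℕ, r.Prime → r ∣ R → (q + 1) ^ 2 < r)
    (act : List (List Bool) → ℤ × ℤ)
    (hact : ∀ g h : G, Subgroup.closure {g, h} = ⊤ →
      orderOf (g ^ (output act (groupEq g h) q).1 * h ^ (output act (groupEq g h) q).2) =
        Nat.card G) :
    ∀ l : ℕ, l.Prime → l ∣ R →
      ∃ w ∈ hist act (freeEq R S) (q + 1), ∃ w' ∈ hist act (freeEq R S) (q + 1),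
        Int.gcd (Int.gcd (w.1 - w'.1) (w.2 - w'.2)) R = R / l := by
  classical
  intro l hl hlR
  by_contra hno
  push Not at hno
  have hR0 : 0 < R := Nat.pos_of_ne_zero (fun h => by rw [h] at hR; exact not_squarefree_zero hR)
  have hS0 : 0 < S := by
    rcases Nat.eq_zero_or_pos S with h | h
    · rw [h, mul_zero] at hG
      exact absurd hG Nat.card_pos.ne'
    · exact h
  set H := hist act (freeEq R S) (q + 1) with hH
  have hHlen : H.length = q + 1 := length_hist _ _ _
  set o := output act (freeEq R S) q with ho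
  -- residues
  have hsl : ∀ r : ℕ, ∃ ab : ℕ × ℕ, r.Prime → r ∣ R →
      (((ab.1 : ZMod r) ≠ 0 ∨ (ab.2 : ZMod r) ≠ 0) ∧
      (r = l → ((o.1 : ℤ) : ZMod r) * ab.1 + ((o.2 : ℤ) : ZMod r) * ab.2 = 0) ∧
      (r ≠ l → ∀ w ∈ H, ∀ w' ∈ H, ((w.1 - w'.1 : ℤ) : ZMod r) * ab.1 +
        ((w.2 - w'.2 : ℤ) : ZMod r) * ab.2 = 0 → ((w.1 - w'.1 : ℤ) : ZMod r) = 0 ∧
          ((w.2 - w'.2 : ℤ) : ZMod r) = 0)) := by
    intro r
    by_cases hr : r.Prime ∧ r ∣ R
    · haveI : Fact r.Prime := ⟨hr.1⟩
      by_cases hrl : r = l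
      · by_cases h0 : ((o.1 : ℤ) : ZMod r) = 0 ∧ ((o.2 : ℤ) : ZMod r) = 0
        · refine ⟨(1, 0), fun _ _ => ⟨Or.inl (by simp), fun _ => by simp [h0.1], fun h => absurd hrl h⟩⟩
        · refine ⟨((-((o.2 : ℤ) : ZMod r)).val, (((o.1 : ℤ) : ZMod r)).val), fun _ _ =>
            ⟨?_, fun _ => ?_, fun h => absurd hrl h⟩⟩
          · simp only [ZMod.natCast_val, ZMod.cast_id', id_eq]
            by_contra hc
            push Not at hc
            exact h0 ⟨hc.2, neg_eq_zero.1 hc.1⟩
          · simp only [ZMod.natCast_val, ZMod.cast_id', id_eq]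
            ring
      · obtain ⟨s, hs⟩ := exists_slope H r (by rw [hHlen]; exact hbig r hr.1 hr.2)
        refine ⟨(1, s.val), fun _ _ => ⟨Or.inl (by simp), fun h => absurd h hrl, fun _ w hw w' hw' h => ?_⟩⟩
        apply hs w hw w' hw'
        simp only [ZMod.natCast_val, ZMod.cast_id', id_eq, Nat.cast_one, mul_one] at h
        rw [← h]; ring
    · exact ⟨(0, 0), fun h1 h2 => absurd ⟨h1, h2⟩ hr⟩
  choose ab hab using hsl
  -- Chinese remainder
  have hcop : Set.Pairwise (R.primeFactors : Set ℕ) (Function.onFun Nat.Coprime id) := by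
    intro a ha b hb hne
    exact (Nat.coprime_primes (Nat.prime_of_mem_primeFactors ha)
      (Nat.prime_of_mem_primeFactors hb)).2 hne
  have hne0 : ∀ i ∈ R.primeFactors, id i ≠ 0 := fun i hi =>
    (Nat.prime_of_mem_primeFactors hi).ne_zero
  obtain ⟨x₀, hx₀⟩ := Nat.chineseRemainderOfFinset (fun r => (ab r).1) id R.primeFactors hne0 hcop
  obtain ⟨y₀, hy₀⟩ := Nat.chineseRemainderOfFinset (fun r => (ab r).2) id R.primeFactors hne0 hcop
  obtain ⟨x, hxR, hxS⟩ := Nat.chineseRemainder hRS x₀ 1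
  obtain ⟨y, hyR, hyS⟩ := Nat.chineseRemainder hRS y₀ 1
  have hxr : ∀ r : ℕ, r.Prime → r ∣ R → (x : ZMod r) = (ab r).1 := by
    intro r hr hrR
    rw [ZMod.natCast_eq_natCast_iff]
    exact (hxR.of_dvd hrR).trans (hx₀ r (Nat.mem_primeFactors.2 ⟨hr, hrR, hR0.ne'⟩))
  have hyr : ∀ r : ℕ, r.Prime → r ∣ R → (y : ZMod r) = (ab r).2 := by
    intro r hr hrR
    rw [ZMod.natCast_eq_natCast_iff]
    exact (hyR.of_dvd hrR).trans (hy₀ r (Nat.mem_primeFactors.2 ⟨hr, hrR, hR0.ne'⟩))
  have hxS' : (S : ℤ) ∣ (x : ℤ) - 1 := by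
    have := (Nat.modEq_iff_dvd.1 hxS.symm)
    exact_mod_cast this
  have hyS' : (S : ℤ) ∣ (y : ℤ) - 1 := by
    have := (Nat.modEq_iff_dvd.1 hyS.symm)
    exact_mod_cast this
  -- the generating pair
  obtain ⟨γ, hγ⟩ := IsCyclic.exists_generator (α := G)
  have hγo : orderOf γ = R * S := by rw [orderOf_eq_card_of_forall_mem_zpowers hγ, hG]
  set g := γ ^ x with hg
  set h := γ ^ y with hh
  have hpow : ∀ w : ℤ × ℤ, g ^ w.1 * h ^ w.2 = γ ^ (w.1 * x + w.2 * y) := by
    intro w
    rw [hg, hh, ← zpow_natCast, ← zpow_natCast, ← zpow_mul, ← zpow_mul, ← zpow_add]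
    congr 1; ring
  have hgen : Subgroup.closure {g, h} = ⊤ := by
    -- gcd(x, y, RS) = 1
    have hgcd : Nat.gcd (Nat.gcd x y) (R * S) = 1 := by
      by_contra hc
      obtain ⟨r, hr, hrd⟩ := Nat.exists_prime_and_dvd hc
      have h1 : r ∣ x := (hrd.trans (Nat.gcd_dvd_left _ _)).trans (Nat.gcd_dvd_left _ _)
      have h2 : r ∣ y := (hrd.trans (Nat.gcd_dvd_left _ _)).trans (Nat.gcd_dvd_right _ _)
      rcases (hr.dvd_mul).1 (hrd.trans (Nat.gcd_dvd_right _ _)) with h3 | h3
      · have h4 := hxr r hr h3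
        have h5 := hyr r hr h3
        rw [(ZMod.natCast_eq_zero_iff x r).2 h1] at h4
        rw [(ZMod.natCast_eq_zero_iff y r).2 h2] at h5
        rcases (hab r hr h3).1 with h6 | h6
        · exact h6 h4.symm
        · exact h6 h5.symm
      · have h4 : (r : ℤ) ∣ 1 := by
          have h5 : (r : ℤ) ∣ (x : ℤ) - 1 := (Int.natCast_dvd_natCast.2 h3).trans hxS'
          have h6 : (r : ℤ) ∣ (x : ℤ) := Int.natCast_dvd_natCast.2 h1
          have := dvd_sub h6 h5
          simpa using this
        have h5 : r ∣ 1 := by exact_mod_cast h4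
        exact hr.one_lt.ne' (Nat.dvd_one.1 h5)
    -- Bezout
    have hb : ∃ u v k : ℤ, u * x + v * y + k * ((R * S : ℕ) : ℤ) = 1 := by
      have e1 := Nat.gcd_eq_gcd_ab (Nat.gcd x y) (R * S)
      have e2 := Nat.gcd_eq_gcd_ab x y
      rw [hgcd, e2] at e1
      refine ⟨Nat.gcdA x y * Nat.gcdA (Nat.gcd x y) (R * S),
        Nat.gcdB x y * Nat.gcdA (Nat.gcd x y) (R * S), Nat.gcdB (Nat.gcd x y) (R * S), ?_⟩
      push_cast at e1 ⊢
      rw [e1]; ring
    obtain ⟨u, v, k, huv⟩ := hb
    have hγmem : γ ∈ Subgroup.closure ({g, h} : Set G) := by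
      have e : γ = g ^ u * h ^ v := by
        have e1 : γ ^ (((R * S : ℕ) : ℤ)) = 1 := by
          rw [zpow_natCast, ← hγo, pow_orderOf_eq_one]
        rw [hpow (u, v)]
        have : (u * x + v * y : ℤ) = 1 - k * ((R * S : ℕ) : ℤ) := by linarith
        simp only
        rw [this, zpow_sub, zpow_one, mul_comm k, zpow_mul, e1, one_zpow, inv_one, mul_one]
      rw [e]
      exact Subgroup.mul_mem _ (Subgroup.zpow_mem _ (Subgroup.subset_closure (by simp)) _)
        (Subgroup.zpow_mem _ (Subgroup.subset_closure (by simp)) _)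
    rw [eq_top_iff]
    intro z _
    obtain ⟨n, rfl⟩ := Subgroup.mem_zpowers_iff.1 (hγ z)
    exact Subgroup.zpow_mem _ hγmem n
  -- equality tests agree
  have hcmp : ∀ w ∈ H, ∀ w' ∈ H, freeEq R S w w' = groupEq g h w w' := by
    intro w hw w' hw'
    unfold freeEq groupEq
    rw [decide_eq_decide, hpow, hpow]
    have e1 : γ ^ (w.1 * x + w.2 * y) = γ ^ (w'.1 * x + w'.2 * y) ↔
        ((R * S : ℕ) : ℤ) ∣ (w.1 - w'.1) * x + (w.2 - w'.2) * y := by
      rw [← hγo, orderOf_dvd_iff_zpow_eq_one, ← mul_inv_eq_one, ← zpow_neg, ← zpow_add]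
      have : w.1 * x + w.2 * y + -(w'.1 * x + w'.2 * y) =
          (w.1 - w'.1) * x + (w.2 - w'.2) * (y : ℤ) := by ring
      rw [this]
    rw [e1]
    have hmodS : (S : ℤ) ∣ (w.1 - w'.1) * x + (w.2 - w'.2) * y ↔
        (S : ℤ) ∣ (w.1 + w.2) - (w'.1 + w'.2) := by
      have e2 : (w.1 - w'.1) * x + (w.2 - w'.2) * (y : ℤ) =
          ((w.1 + w.2) - (w'.1 + w'.2)) + ((w.1 - w'.1) * ((x : ℤ) - 1) +
            (w.2 - w'.2) * ((y : ℤ) - 1)) := by ring
      rw [e2]
      exact dvd_add_left (dvd_add (Dvd.dvd.mul_left hxS' _) (Dvd.dvd.mul_left hyS' _))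
    constructor
    · rintro ⟨h1, h2, h3⟩
      push_cast
      refine IsCoprime.mul_dvd ?_ ?_ (hmodS.2 h3)
      · exact Nat.isCoprime_iff_coprime.2 hRS
      · exact dvd_add (Dvd.dvd.mul_right h1 _) (Dvd.dvd.mul_right h2 _)
    · intro hd
      push_cast at hd
      have hS1 := hmodS.1 ((Dvd.intro_left _ rfl).trans hd)
      have hR1 : (R : ℤ) ∣ (w.1 - w'.1) * x + (w.2 - w'.2) * y :=
        (Dvd.intro _ rfl).trans hd
      -- all primes but l divide both differences
      have hpr : ∀ r : ℕ, r.Prime → r ∣ R → r ≠ l →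
          (r : ℤ) ∣ w.1 - w'.1 ∧ (r : ℤ) ∣ w.2 - w'.2 := by
        intro r hr hrR hrl
        have h4 : (r : ℤ) ∣ (w.1 - w'.1) * x + (w.2 - w'.2) * y :=
          (Int.natCast_dvd_natCast.2 hrR).trans hR1
        have h5 : (((w.1 - w'.1) * x + (w.2 - w'.2) * y : ℤ) : ZMod r) = 0 :=
          (ZMod.intCast_zmod_eq_zero_iff_dvd _ _).2 h4
        have h6 := (hab r hr hrR).2.2 hrl w hw w' hw' (by
          rw [← hxr r hr hrR, ← hyr r hr hrR]
          rw [← h5]; push_cast; ring)
        exact ⟨(ZMod.intCast_zmod_eq_zero_iff_dvd _ _).1 h6.1,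
          (ZMod.intCast_zmod_eq_zero_iff_dvd _ _).1 h6.2⟩
      -- R / l divides both
      obtain ⟨Q, hQ⟩ := hlR
      have hQl : R / l = Q := by rw [hQ]; exact Nat.mul_div_cancel_left _ hl.pos
      have hQsq : Squarefree Q := hR.squarefree_of_dvd ⟨l, by rw [hQ]; ring⟩
      have hlQ : Nat.Coprime l Q := by
        rw [hQ] at hR
        exact Nat.coprime_of_squarefree_mul hR
      have hdivQ : ∀ d : ℤ, (∀ r : ℕ, r.Prime → r ∣ R → r ≠ l → (r : ℤ) ∣ d) → (Q : ℤ) ∣ d := by
        intro d hd'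
        have : Q ∣ d.natAbs := by
          rw [← Nat.prod_primeFactors_of_squarefree hQsq]
          apply Finset.prod_primes_dvd
          · intro r hr; exact (Nat.prime_of_mem_primeFactors hr).prime
          · intro r hr
            have hr1 := Nat.prime_of_mem_primeFactors hr
            have hr2 := Nat.dvd_of_mem_primeFactors hr
            have hr3 : r ≠ l := by
              rintro rfl
              exact hr1.one_lt.ne' (Nat.dvd_one.1 (by
                have := Nat.dvd_gcd (dvd_refl r) hr2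
                rwa [hlQ] at this))
            have := hd' r hr1 (hr2.trans ⟨l, by rw [hQ]; ring⟩) hr3
            exact Int.natCast_dvd.1 this
        exact Int.natCast_dvd.2 this
      have hQ1 := hdivQ _ (fun r h1 h2 h3 => (hpr r h1 h2 h3).1)
      have hQ2 := hdivQ _ (fun r h1 h2 h3 => (hpr r h1 h2 h3).2)
      -- l divides both, otherwise the gcd is R / l
      have hll : (l : ℤ) ∣ w.1 - w'.1 ∧ (l : ℤ) ∣ w.2 - w'.2 := by
        by_contra hc
        apply hno w hw w' hw'
        rw [hQl]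
        apply Nat.dvd_antisymm
        · -- gcd divides Q
          have hgR : Int.gcd (Int.gcd (w.1 - w'.1) (w.2 - w'.2)) R ∣ l * Q := by
            have := Int.gcd_dvd_right (a := (Int.gcd (w.1 - w'.1) (w.2 - w'.2) : ℤ)) (b := (R : ℤ))
            rw [← hQ]
            exact Int.natCast_dvd_natCast.1 this
          have hnl : ¬ l ∣ Int.gcd (Int.gcd (w.1 - w'.1) (w.2 - w'.2)) R := by
            intro hd2
            apply hc
            have h7 : (l : ℤ) ∣ (Int.gcd (w.1 - w'.1) (w.2 - w'.2) : ℤ) :=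
              (Int.natCast_dvd_natCast.2 hd2).trans (Int.gcd_dvd_left _ _)
            exact ⟨h7.trans (Int.gcd_dvd_left _ _), h7.trans (Int.gcd_dvd_right _ _)⟩
          exact (Nat.Coprime.dvd_of_dvd_mul_left
            ((Nat.Prime.coprime_iff_not_dvd hl).2 hnl).symm hgR)
        · apply Int.dvd_gcd
          · exact Int.dvd_coe_gcd hQ1 hQ2
          · exact Int.natCast_dvd_natCast.2 ⟨l, by rw [hQ]; ring⟩
      have hRdiv : ∀ d : ℤ, (l : ℤ) ∣ d → (Q : ℤ) ∣ d → (R : ℤ) ∣ d := by
        intro d h1 h2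
        rw [hQ]; push_cast
        exact IsCoprime.mul_dvd (Nat.isCoprime_iff_coprime.2 hlQ) h1 h2
      exact ⟨hRdiv _ hll.1 hQ1, hRdiv _ hll.2 hQ2, hS1⟩
  -- the runs agree
  have hrun : hist act (freeEq R S) q = hist act (groupEq g h) q :=
    hist_congr (m := q + 1) hcmp q (by omega)
  have hout : output act (groupEq g h) q = o := by
    rw [ho]
    unfold output
    rw [← hrun]
    congr 1
    unfold table
    refine List.map_congr_left fun w hw => List.map_congr_left fun w' hw' => ?_
    exact (hcmp w (hist_sub (by omega) w hw) w' (hist_sub (by omega) w' hw')).symm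
  have hfin := hact g h hgen
  rw [hout, hpow, hG] at hfin
  -- l divides the exponent
  haveI : Fact l.Prime := ⟨hl⟩
  have h8 : (l : ℤ) ∣ o.1 * x + o.2 * y := by
    apply (ZMod.intCast_zmod_eq_zero_iff_dvd _ _).1
    push_cast
    rw [hxr l hl hlR, hyr l hl hlR]
    exact (hab l hl hlR).2.1 rfl
  obtain ⟨k, hk⟩ := h8
  obtain ⟨Q, hQ⟩ := hlR
  have h9 : (γ ^ (o.1 * x + o.2 * y)) ^ (Q * S) = 1 := by
    rw [hk, ← zpow_natCast, ← zpow_mul]
    have : (l : ℤ) * k * ((Q * S : ℕ) : ℤ) = ((R * S : ℕ) : ℤ) * k := by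
      rw [hQ]; push_cast; ring
    rw [this, zpow_mul, zpow_natCast, ← hγo, pow_orderOf_eq_one, one_zpow]
  have h10 := orderOf_dvd_of_pow_eq_one h9
  rw [hfin, hQ] at h10
  have hQS : 0 < Q * S := by
    rcases Nat.eq_zero_or_pos Q with h | h
    · rw [h, mul_zero] at hQ; omega
    · positivity
  have h11 := Nat.le_of_dvd hQS h10
  have h12 := hl.two_le
  nlinarith

end Pool.Agent.Results.MP_18a8a6_lc.GenericFactoring
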