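import Mathlib
import Pool.Agent.H595R2.PR.Core
import Pool.Agent.H595R2.PR.FEW

set_option autoImplicit false

/-! # Deterministic construction of primitive roots with `O(log n)` bits of advice -/

namespace Pool.Agent.Results.MP_18a8a6_lc.LogAdvice

open Finset

/-- `F` is computable in polynomial time: some function on bit strings computed by a Turing machine
(Mathlib's `TM2ComputableInPolyTime`) in polynomially many steps sends the binary digits of `p` to
the code of the list `F p`. -/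
def PolyTimeList (F : ℕ → List ℕ) : Prop :=
  ∃ f : List Bool → List Bool, NPC.PolyTime f ∧ ∀ p : ℕ, f (Nat.bits p) = NPC.bits (F p)

/-- `g` is a primitive root modulo `p` -/
def IsPrimRoot (p g : ℕ) : Prop := orderOf (g : ZMod p) = p - 1

section aux

open H595R2.PR Filter Topology

theorem prim_of_gen {A C p a : ℕ} (hp : p.Prime) (h : Gen A C p a) (ht : Gam p (p.size ^ A) = ⊤) :
    IsPrimRoot p ((cands A C p).getD a 0) := by
  have : Fact p.Prime := ⟨hp⟩
  obtain ⟨u, hu1, hu2⟩ := h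
  unfold IsPrimRoot
  rw [← hu1, orderOf_units, ← Nat.card_zpowers, hu2, ht, Subgroup.card_top,
    Nat.card_eq_fintype_card, ZMod.card_units]

end aux

open Classical H595R2.PR Filter Topology in
/-- For every `B` there are `C`, a polynomial-time computable list `F p` of `n ^ C` numbers,
`n = size p` the number of binary digits of `p`, and an advice function `h` with `h n < n ^ C`
(so that `h n` has `O(log n)` bits), such that for all large `n` the entry of `F p` with index `h n`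
is a primitive root modulo `p` for all but at most `2 ^ n / n ^ B` of the primes `p` with `n`
binary digits. -/
theorem result (B : ℕ) :
    ∃ (C : ℕ) (F : ℕ → List ℕ) (h : ℕ → ℕ), PolyTimeList F ∧
      (∀ p : ℕ, (F p).length = p.size ^ C) ∧
      ∃ n₀ : ℕ, ∀ n : ℕ, n₀ ≤ n → h n < n ^ C ∧
        n ^ B * #{p ∈ range (2 ^ n) | p.Prime ∧ p.size = n ∧
          ¬ IsPrimRoot p ((F p).getD (h n) 0)} ≤ 2 ^ n := by
  suffices hs : ∃ (C : ℕ) (F : ℕ → List ℕ), PolyTimeList F ∧
      (∀ p : ℕ, (F p).length = p.size ^ C) ∧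
      ∃ n₀ : ℕ, ∀ n : ℕ, n₀ ≤ n → ∃ h < n ^ C,
        n ^ B * #{p ∈ range (2 ^ n) | p.Prime ∧ p.size = n ∧
          ¬ IsPrimRoot p ((F p).getD h 0)} ≤ 2 ^ n by
    obtain ⟨C, F, h1, h2, n₀, h3⟩ := hs
    choose! h h4 using h3
    exact ⟨C, F, h, h1, h2, n₀, h4⟩
  obtain ⟨ε, hε⟩ : ∃ ε : ℝ, 0 < ε := ⟨1, one_pos⟩
  classical
  set ε' : ℝ := min (ε / 2) (1 / 2) with hε'
  have hε0 : 0 < ε' := lt_min (by linarith) (by norm_num)
  obtain ⟨A, hA⟩ := H595R2.PR.Gam_top ε' hε0
  obtain ⟨x₁, hx₁⟩ := hA A le_rfl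
  obtain ⟨p₀, hp₀⟩ := H595R2.PR.core A (A + B + 2)
  set F := H595R2.PR.cands A (A + B + 2) with hF
  have hlen : ∀ p : ℕ, (F p).length = p.size ^ (A + B + 2) := fun p => by
    simp [hF, H595R2.PR.cands]
  -- the main count
  have hmain : ∀ p : ℕ, p₀ ≤ p → p.Prime → H595R2.PR.Gam p (p.size ^ A) = ⊤ →
      #{i ∈ range (p.size ^ (A + B + 2)) | ¬ IsPrimRoot p ((F p).getD i 0)} ≤
        p.size ^ (A + 1) := by
    intro p hp hpp ht
    refine le_trans (card_le_card ?_) ((hp₀ p hp hpp).trans (by rw [pow_succ]))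
    intro i hi
    obtain ⟨h1, h2⟩ := mem_filter.1 hi
    exact mem_filter.2 ⟨h1, fun hg => h2 (prim_of_gen hpp hg ht)⟩
  refine ⟨A + B + 2, F, H595R2.PR.polyTime_cands A (A + B + 2), hlen, ?_⟩
  · -- advice
    have hev1 : ∀ᶠ n : ℕ in atTop, (n : ℝ) ^ (B : ℕ) ≤ (1 / 2) * ((2 : ℝ) ^ (1 / 2 : ℝ)) ^ n := by
      have h2 := (isLittleO_pow_const_const_pow_of_one_lt (R := ℝ) B
        (r := (2 : ℝ) ^ (1 / 2 : ℝ)) (Real.one_lt_rpow (by norm_num) (by norm_num)))
      have h3 := h2.bound (c := 1/2) (by norm_num)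
      filter_upwards [h3] with n hn
      rwa [Real.norm_of_nonneg (by positivity), Real.norm_of_nonneg (by positivity)] at hn
    have hev2 : ∀ᶠ n : ℕ in atTop, max x₁ p₀ ≤ 2 ^ (n - 1) :=
      ((tendsto_pow_atTop_atTop_of_one_lt (by norm_num : 1 < 2)).comp
        (tendsto_sub_atTop_nat 1)).eventually_ge_atTop _
    obtain ⟨n₁, hn₁⟩ := eventually_atTop.1 (hev1.and (hev2.and (eventually_gt_atTop 2)))
    refine ⟨n₁, fun n hn => ?_⟩
    obtain ⟨ha, hb, hc⟩ := hn₁ n hn
    by_contra hcon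
    push Not at hcon
    -- double counting
    set P := (range (2 ^ n)).filter (fun p => p.Prime ∧ p.size = n) with hP
    set X := P.filter (fun p => H595R2.PR.Gam p (p.size ^ A) ≠ ⊤) with hX
    have hXcard : (#X : ℝ) ≤ ((2 : ℝ) ^ n) ^ (1 / 2 : ℝ) := by
      have h1 := hx₁ (2 ^ n) (le_trans (le_trans (le_max_left _ _) hb)
        (Nat.pow_le_pow_right (by norm_num) (by omega)))
      have h2 : #X ≤ #((range (2 ^ n + 1)).filter (fun p => p.Prime ∧
          H595R2.PR.Gam p (p.size ^ A) ≠ ⊤)) := by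
        apply card_le_card
        intro p hp
        rw [hX, hP] at hp
        obtain ⟨h3, h4⟩ := mem_filter.1 hp
        obtain ⟨h5, h6, _⟩ := mem_filter.1 h3
        exact mem_filter.2 ⟨mem_range.2 (by have := mem_range.1 h5; omega), h6, h4⟩
      calc (#X : ℝ) ≤ _ := by exact_mod_cast h2
        _ ≤ ((2 ^ n : ℕ) : ℝ) ^ ε' := h1
        _ ≤ ((2 ^ n : ℕ) : ℝ) ^ (1 / 2 : ℝ) := by
            apply Real.rpow_le_rpow_of_exponent_le
            · exact_mod_cast Nat.one_le_two_pow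
            · exact min_le_right _ _
        _ = _ := by push_cast; rfl
    have hPcard : #P ≤ 2 ^ n := (card_filter_le _ _).trans (by rw [card_range])
    have hdc : ∑ h ∈ range (n ^ (A + B + 2)), #{p ∈ range (2 ^ n) | p.Prime ∧ p.size = n ∧
        ¬ IsPrimRoot p ((F p).getD h 0)} =
        ∑ p ∈ P, #{h ∈ range (n ^ (A + B + 2)) | ¬ IsPrimRoot p ((F p).getD h 0)} := by
      simp_rw [card_filter, hP, sum_filter]
      rw [sum_comm]
      refine sum_congr rfl fun p _ => ?_
      by_cases h : p.Prime ∧ p.size = n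
      · rw [if_pos h]
        refine sum_congr rfl fun i _ => ?_
        simp [h.1, h.2]
      · rw [if_neg h]
        apply sum_eq_zero
        intro i _
        rw [if_neg]
        rintro ⟨h1, h2, _⟩
        exact h ⟨h1, h2⟩
    have hup : ∑ p ∈ P, #{h ∈ range (n ^ (A + B + 2)) | ¬ IsPrimRoot p ((F p).getD h 0)} ≤
        #X * n ^ (A + B + 2) + 2 ^ n * n ^ (A + 1) := by
      have h1 : ∀ p ∈ P, #{h ∈ range (n ^ (A + B + 2)) | ¬ IsPrimRoot p ((F p).getD h 0)} ≤
          (if p ∈ X then n ^ (A + B + 2) else 0) + n ^ (A + 1) := by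
        intro p hp
        obtain ⟨h2, h3, h4⟩ := mem_filter.1 hp
        by_cases h5 : p ∈ X
        · rw [if_pos h5]
          refine le_trans ((card_filter_le _ _).trans (by rw [card_range])) (Nat.le_add_right _ _)
        · rw [if_neg h5, zero_add]
          have h6 : H595R2.PR.Gam p (p.size ^ A) = ⊤ := by
            by_contra h7
            exact h5 (mem_filter.2 ⟨hp, h7⟩)
          have h8 : p₀ ≤ p := by
            refine le_trans (le_trans (le_max_right _ _) hb) ?_
            apply Nat.lt_size.1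
            omega
          have h9 := hmain p h8 h3 h6
          rw [h4] at h9
          exact h9
      refine (sum_le_sum h1).trans ?_
      rw [sum_add_distrib, sum_const, smul_eq_mul, sum_ite_mem, sum_const, smul_eq_mul]
      have h10 : #(P ∩ X) ≤ #X := card_le_card inter_subset_right
      exact Nat.add_le_add (Nat.mul_le_mul_right _ h10) (Nat.mul_le_mul_right _ hPcard)
    have hlow : n ^ (A + B + 2) * 2 ^ n < n ^ B * ∑ h ∈ range (n ^ (A + B + 2)),
        #{p ∈ range (2 ^ n) | p.Prime ∧ p.size = n ∧ ¬ IsPrimRoot p ((F p).getD h 0)} := by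
      rw [mul_sum, ← card_range (n ^ (A + B + 2)), ← smul_eq_mul, ← sum_const, card_range]
      apply sum_lt_sum_of_nonempty
      · exact nonempty_range_iff.2 (pow_pos (by omega) _).ne'
      · intro h hh
        exact hcon h (mem_range.1 hh)
    rw [hdc] at hlow
    have h20 := lt_of_lt_of_le hlow (Nat.mul_le_mul_left _ hup)
    have h21 : ((n : ℝ) ^ (A + B + 2) * 2 ^ n) <
        (n : ℝ) ^ B * (#X * (n : ℝ) ^ (A + B + 2) + 2 ^ n * (n : ℝ) ^ (A + 1)) := by
      exact_mod_cast h20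
    have hn3 : (3 : ℝ) ≤ n := by exact_mod_cast hc
    have h22 : ((2 : ℝ) ^ n) ^ (1 / 2 : ℝ) = ((2 : ℝ) ^ (1 / 2 : ℝ)) ^ n := by
      rw [← Real.rpow_natCast, ← Real.rpow_natCast, ← Real.rpow_mul (by norm_num),
        ← Real.rpow_mul (by norm_num), mul_comm]
    have h23 : ((2 : ℝ) ^ (1 / 2 : ℝ)) ^ n * ((2 : ℝ) ^ (1 / 2 : ℝ)) ^ n = 2 ^ n := by
      rw [← mul_pow, ← Real.rpow_add (by norm_num)]
      norm_num
    have h24 : (n : ℝ) ^ B * #X ≤ 2 ^ n / 2 := by
      rw [h22] at hXcard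
      have h25 : (0 : ℝ) ≤ #X := by positivity
      have h26 : (0 : ℝ) < ((2 : ℝ) ^ (1 / 2 : ℝ)) ^ n := by positivity
      calc (n : ℝ) ^ B * #X ≤ (1 / 2 * ((2 : ℝ) ^ (1 / 2 : ℝ)) ^ n) *
            ((2 : ℝ) ^ (1 / 2 : ℝ)) ^ n := mul_le_mul ha hXcard h25 (by positivity)
        _ = 2 ^ n / 2 := by rw [mul_assoc, h23]; ring
    have h27 : (n : ℝ) ^ B * ((2 : ℝ) ^ n * (n : ℝ) ^ (A + 1)) ≤
        (n : ℝ) ^ (A + B + 2) * (2 ^ n / 2) := by
      have : (n : ℝ) ^ (A + B + 2) = (n : ℝ) ^ B * (n : ℝ) ^ (A + 1) * n := by ring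
      rw [this]
      have h28 : 0 < (n : ℝ) ^ B * (n : ℝ) ^ (A + 1) * 2 ^ n := by positivity
      nlinarith
    have h29 : (n : ℝ) ^ B * (#X * (n : ℝ) ^ (A + B + 2)) ≤
        (n : ℝ) ^ (A + B + 2) * (2 ^ n / 2) := by
      calc (n : ℝ) ^ B * (#X * (n : ℝ) ^ (A + B + 2)) =
            (n : ℝ) ^ (A + B + 2) * ((n : ℝ) ^ B * #X) := by ring
        _ ≤ _ := mul_le_mul_of_nonneg_left h24 (by positivity)
    nlinarith


end Pool.Agent.Results.MP_18a8a6_lc.LogAdvice
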